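import Mathlib
import Pool.Agent.R601.Halin.Defs
import Pool.Agent.R601.Halin.Main

/-!
# Some of the variants of Halin's ray theorem do not imply each other

The standard structure `fullModel` (the natural numbers with all sets of natural numbers) is a
model of `RCA₀ + IΣ¹₁`. In it `IRT_UVS` and `IRT_DVS` (vertex-disjoint single rays, undirected and
directed) hold, and `IRT_DED` (edge-disjoint directed double rays) fails. Hence neither `IRT_UVS`
nor `IRT_DVS` implies `IRT_DED` over `RCA₀`, or over `RCA₀ + IΣ¹₁`.

The digraph that refutes `IRT_DED` is the one of the starting file `Pool/Agent/S09012.lean`; it is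
countable. All definitions are in `Pool/Agent/R601/Halin/Defs.lean`.
-/

namespace Pool.Agent.Results.MP_87773f_lc.RaysSeparated

open Pool.Agent.Helper617.RM Pool.Agent.R601.Halin

/-- The arguments of `IRT N directed edge double` select the variant: directed graphs or not,
edge-disjoint or vertex-disjoint rays, double or single rays. -/
theorem result :
    IsModelRCA0 fullModel ∧ Sigma11Induction fullModel ∧
      IRT fullModel false false false ∧ IRT fullModel true false false ∧
      ¬ IRT fullModel true true true :=
  ⟨fullModel_isModel, full_sigma11, full_single false, full_single true, not_full_ded⟩

end Pool.Agent.Results.MP_87773f_lc.RaysSeparated
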